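import Pool.Agent.Work.MP_499dc6_lc.CDG.Defs

/-!
# Quasi-polynomial identity testing for constant depth circuits: definitions
-/

namespace Pool.Agent.Work.MP_3c5c20_lc.PIT

open MvPolynomial Pool.Agent.Work.MP_499dc6_lc.CD Pool.Agent.Work.MP_499dc6_lc.CDG

/-- Span of the products of the components `p.2` of `q p.1` over the multisets of pairs `p` with
`1 ≤ p.2`, sum of the `p.2` equal to `k` and sum of the `p.1` at most `2 k`. -/
noncomputable def RS (K : Type) [Field K] {σ : Type} (q : ℕ → MvPolynomial σ K) (k : ℕ) :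
    Submodule K (MvPolynomial σ K) :=
  Submodule.span K {a | ∃ M : Multiset (ℕ × ℕ), (∀ p ∈ M, 1 ≤ p.2) ∧
    (M.map Prod.snd).sum = k ∧ (M.map Prod.fst).sum ≤ 2 * k ∧
    a = (M.map fun p => homogeneousComponent p.2 (q p.1)).prod}

/-- The variables of the hard polynomial. -/
abbrev VV (m n : ℕ) : Type := (Fin (aa m) × Fin n × Fin n) ⊕ (Fin m × Fin n × Fin n)

/-- Number of a variable of the hard polynomial. -/
noncomputable def pos (m n : ℕ) : VV m n → ℕ
  | Sum.inl (t, u, v) => ((t : ℕ) * n + u) * n + v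
  | Sum.inr (t, u, v) => ((aa m + (t : ℕ)) * n + u) * n + v

/-- The value at `x` (modulo `p`) of the polynomial whose coefficients are the `ka` last digits of
`i` in base `p`. -/
def dig (p : ℕ) [NeZero p] (ka i x : ℕ) : Fin p :=
  Fin.ofNat p (∑ c ∈ Finset.range ka, (i / p ^ c % p) * x ^ c)

/-- The generator: the hard polynomial in the `i`-th set of variables of a design. -/
noncomputable def Gen (R : Type) [CommSemiring R] (m n p : ℕ) [NeZero p] (ka : ℕ) (z0 : Fin n)
    (i : ℕ) : MvPolynomial (VV m n × Fin p) R :=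
  aeval (fun v : VV m n => (X (v, dig p ka i (pos m n v)) : MvPolynomial (VV m n × Fin p) R))
    (PW R m n z0)

/-- Translation by a point. -/
noncomputable def trl {K σ : Type} [Field K] (x : σ → K) : MvPolynomial σ K →+* MvPolynomial σ K :=
  (aeval (fun j => (X j + C (x j) : MvPolynomial σ K)) :
    MvPolynomial σ K →ₐ[K] MvPolynomial σ K).toRingHom

end Pool.Agent.Work.MP_3c5c20_lc.PIT
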