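import Pool.Agent.Work.MP_3c5c20_lc.QP.AllHit
import Pool.Agent.Work.MP_3c5c20_lc.Bd.B02
import Pool.Agent.Work.MP_3c5c20_lc.Bd.B01

/-!
# The explicit hitting set
-/

namespace Pool.Agent.Work.MP_3c5c20_lc.PIT

open MvPolynomial Pool.Agent.Work.MP_499dc6_lc.CD Pool.Agent.Work.MP_499dc6_lc.CDG

/-- The least prime that is at least `k`. -/
noncomputable def prm (k : ℕ) : ℕ := Nat.find (Nat.exists_infinite_primes k)

theorem prm_prime (k : ℕ) : (prm k).Prime := (Nat.find_spec (Nat.exists_infinite_primes k)).2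

theorem prm_ge (k : ℕ) : k ≤ prm k := (Nat.find_spec (Nat.exists_infinite_primes k)).1

theorem prm_le {k : ℕ} (hk : k ≠ 0) : prm k ≤ 2 * k := by
  obtain ⟨p, hp, h1, h2⟩ := Nat.exists_prime_lt_and_le_two_mul k hk
  exact (Nat.find_min' (Nat.exists_infinite_primes k) ⟨h1.le, hp⟩).trans h2

instance (k : ℕ) : NeZero (prm k) := ⟨(prm_prime k).ne_zero⟩

/-- The values of the generator at the points of the grid `{0, ..., B}`. -/
noncomputable def hs (m n p ka N B : ℕ) [NeZero p] (z0 : Fin n) : Finset (Fin N → ℕ) :=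
  (Fintype.piFinset fun _ : VV m n × Fin p => Finset.range (B + 1)).image
    fun y i => eval y (Gen ℕ m n p ka z0 i)

/-- The parameter of the hard polynomial. -/
def mm (D h : ℕ) : ℕ := (1300 * h ^ 2) ^ (10 ^ (2 * D + 3)) + 1

theorem mm_eq (D h : ℕ) : mm D h = (1300 * h ^ 2) ^ (10 ^ (2 * D + 3)) + 1 := rfl

theorem mm_pos (D h : ℕ) : 0 < mm D h ^ 10 := Nat.pow_pos (Nat.succ_pos _)

attribute [irreducible] mm

/-- The explicit hitting set. -/
noncomputable def hset (D h N : ℕ) : Finset (Fin N → ℕ) :=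
  hs (mm D h) (mm D h ^ 10) (prm ((aa (mm D h) + mm D h) * mm D h ^ 10 * mm D h ^ 10)) h N
    (2 ^ h * (aa (mm D h) + mm D h)) ⟨0, mm_pos D h⟩

theorem gen_eq_rename (K : Type) [Field K] (m n p : ℕ) [NeZero p] (ka : ℕ) (z0 : Fin n) (i : ℕ) :
    Gen K m n p ka z0 i =
      rename (fun v : VV m n => ((v, dig p ka i (pos m n v)) : VV m n × Fin p)) (PW K m n z0) := by
  have h : (aeval (fun v : VV m n => (X (v, dig p ka i (pos m n v)) :
      MvPolynomial (VV m n × Fin p) K)) : MvPolynomial (VV m n) K →ₐ[K] _) =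
      rename (fun v : VV m n => ((v, dig p ka i (pos m n v)) : VV m n × Fin p)) := by
    apply MvPolynomial.algHom_ext
    intro v
    rw [aeval_X, rename_X]
  unfold Gen
  rw [h]

theorem aa_le_two (m : ℕ) : aa m ≤ 2 * m := by
  unfold aa
  rw [Nat.ceil_le]
  push_cast
  have : √2 ≤ 2 := by
    rw [Real.sqrt_le_left (by norm_num)]; norm_num
  nlinarith [(Nat.cast_nonneg m : (0 : ℝ) ≤ m)]

theorem hs_hits (K : Type) [Field K] [CharZero K] (D h N s e r m n p : ℕ) [NeZero p]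
    (z0 : Fin n) (hn : n = m ^ 10) (hpp : p.Prime) (hpl : (aa m + m) * n * n ≤ p)
    (hh : 1 ≤ h) (hN : N ≤ 2 ^ h) (hs' : s < 2 ^ h) (he : e ≤ h) (hr : r ≤ h ^ 2)
    (hm : ((1300 : ℝ) * (h : ℝ) ^ 2) ^ (10 ^ (2 * D + 3)) < m)
    (F : Fin s → MvPolynomial (Fin N) K) (d : Fin s → ℕ) (hF : IsCirc e r F d)
    (hd : ∀ i, d i ≤ D) (i0 : Fin s) (h0 : F i0 ≠ 0) (hdeg : (F i0).totalDegree < 2 ^ h) :
    ∃ x ∈ hs m n p h N (2 ^ h * (aa m + m)) z0, eval (fun i => (x i : K)) (F i0) ≠ 0 := by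
  have hNp : N ≤ p ^ h := hN.trans (Nat.pow_le_pow_left hpp.two_le h)
  have hh1 : (1 : ℝ) ≤ h := by exact_mod_cast hh
  have hlog : ∀ t : ℕ, t < 2 ^ h → Real.log (t + 1) ≤ h := by
    intro t ht
    have h1 : ((t : ℝ) + 1) ≤ 2 ^ h := by exact_mod_cast ht
    calc Real.log (t + 1) ≤ Real.log (2 ^ h) := Real.log_le_log (by positivity) h1
      _ = h * Real.log 2 := by rw [Real.log_pow]
      _ ≤ h * 1 := by
          have := Real.log_two_lt_d9
          exact mul_le_mul_of_nonneg_left (by linarith) (by positivity)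
      _ = h := mul_one _
  obtain ⟨E, hE⟩ : ∃ E, E = 2 ^ h - 1 := ⟨_, rfl⟩
  have hE1 : E < 2 ^ h := by rw [hE]; exact Nat.sub_lt (Nat.two_pow_pos h) one_pos
  have hE2 : (F i0).totalDegree ≤ E := by omega
  obtain ⟨q, hq⟩ : ∃ q, q = 10 ^ (2 * D + 3) := ⟨_, rfl⟩
  have hnum : (257 * (Real.log (s + 1) + ((e * h : ℕ) : ℝ) + r + 1 +
      Real.log (E + 1))) ^ (10 ^ (2 * D + 3)) < (m : ℝ) := by
    rw [← hq] at hm ⊢
    have h1 : Real.log (s + 1) ≤ h := hlog s hs'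
    have h2 : Real.log ((E : ℝ) + 1) ≤ h := hlog E hE1
    have h3 : ((e * h : ℕ) : ℝ) ≤ (h : ℝ) ^ 2 := by
      have : e * h ≤ h ^ 2 := by nlinarith
      exact_mod_cast this
    have h4 : (r : ℝ) ≤ (h : ℝ) ^ 2 := by exact_mod_cast hr
    have h5 : 0 ≤ Real.log ((s : ℝ) + 1) :=
      Real.log_nonneg (by have : (0 : ℝ) ≤ s := Nat.cast_nonneg s; linarith)
    have h6 : 0 ≤ Real.log ((E : ℝ) + 1) :=
      Real.log_nonneg (by have : (0 : ℝ) ≤ E := Nat.cast_nonneg _; linarith)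
    have h8 : (0 : ℝ) ≤ ((e * h : ℕ) : ℝ) := Nat.cast_nonneg _
    have h9 : (0 : ℝ) ≤ (r : ℝ) := Nat.cast_nonneg _
    have h7 : 257 * (Real.log (s + 1) + ((e * h : ℕ) : ℝ) + r + 1 +
      Real.log ((E : ℝ) + 1)) ≤ 1300 * (h : ℝ) ^ 2 := by nlinarith
    exact (pow_le_pow_left₀ (by linarith) h7 q).trans_lt hm
  have hmain := QP.full_HitG K m n N h s D e r E z0 (VV m n × Fin p)
    (fun i v => (v, dig p h i (pos m n v))) F d i0 hn
    (fun i v w hvw => (Prod.ext_iff.1 hvw).1)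
    (by
      intro i j hij
      refine le_trans (Finset.card_le_card ?_)
        (pr_Dig m n p h i j hpp hpl (lt_of_lt_of_le i.2 hNp) (lt_of_lt_of_le j.2 hNp)
          (fun hc => hij (Fin.ext hc)))
      intro v hv
      simp only [Finset.mem_filter, Finset.mem_univ, true_and, Finset.mem_image] at hv ⊢
      obtain ⟨w, hw⟩ := hv
      obtain ⟨h1, h2⟩ := Prod.ext_iff.1 hw
      simp only at h1 h2
      rw [← h2, h1])
    hh hF hd h0 hE2 hnum
  obtain ⟨y, hy, hy'⟩ := QP.pr_GridAlt K m n p h N (2 ^ h) z0 (F i0) hdeg.le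
    (by simpa only [gen_eq_rename] using hmain)
  refine ⟨fun i => eval y (Gen ℕ m n p h z0 i), ?_, hy'⟩
  unfold hs
  refine Finset.mem_image.2 ⟨y, ?_, rfl⟩
  rw [Fintype.mem_piFinset]
  intro v
  exact Finset.mem_range.2 (Nat.lt_succ_of_le (hy v))

theorem hs_card (h N m n p : ℕ) [NeZero p] (z0 : Fin n) (hn : n = m ^ 10) (hm : 1301 ≤ m)
    (hp2 : p ≤ 6 * m ^ 21) (hhm : h ≤ m) :
    (hs m n p h N (2 ^ h * (aa m + m)) z0).card ≤ 2 ^ m ^ 44 := by
  classical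
  have haa : aa m ≤ 2 * m := aa_le_two m
  have hl : (aa m + m) * n * n ≤ 3 * m ^ 21 := by
    rw [hn]
    calc (aa m + m) * m ^ 10 * m ^ 10 ≤ (3 * m) * m ^ 10 * m ^ 10 := by gcongr; omega
      _ = 3 * m ^ 21 := by ring
  have hB : 2 ^ h * (aa m + m) + 1 ≤ 2 ^ (h + m) := by
    have h1 : aa m + m ≤ 3 * m := by omega
    have h2 : 3 * m + 1 ≤ 2 ^ m := by
      have : ∀ k : ℕ, 3 * (k + 4) + 1 ≤ 2 ^ (k + 4) := by
        intro k
        induction k with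
        | zero => norm_num
        | succ k ih => rw [show k + 1 + 4 = (k + 4) + 1 by ring, pow_succ]; omega
      have h3 := this (m - 4)
      rwa [Nat.sub_add_cancel (by omega)] at h3
    calc 2 ^ h * (aa m + m) + 1 ≤ 2 ^ h * (3 * m) + 2 ^ h :=
          add_le_add (Nat.mul_le_mul_left _ h1) Nat.one_le_two_pow
      _ = 2 ^ h * (3 * m + 1) := by ring
      _ ≤ 2 ^ h * 2 ^ m := Nat.mul_le_mul_left _ h2
      _ = 2 ^ (h + m) := by rw [pow_add]
  have hcard : (hs m n p h N (2 ^ h * (aa m + m)) z0).card ≤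
      (2 ^ h * (aa m + m) + 1) ^ (((aa m + m) * n * n) * p) := by
    unfold hs
    refine Finset.card_image_le.trans ?_
    rw [Fintype.card_piFinset]
    simp only [Finset.card_range, Finset.prod_const, Finset.card_univ]
    refine le_of_eq ?_
    congr 1
    rw [Fintype.card_prod, Fintype.card_sum, Fintype.card_fin]
    simp only [Fintype.card_prod, Fintype.card_fin]
    ring
  refine hcard.trans ?_
  calc (2 ^ h * (aa m + m) + 1) ^ (((aa m + m) * n * n) * p)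
      ≤ (2 ^ (h + m)) ^ ((3 * m ^ 21) * (6 * m ^ 21)) :=
        (Nat.pow_le_pow_left hB _).trans
          (Nat.pow_le_pow_right (by positivity) (Nat.mul_le_mul hl hp2))
    _ = 2 ^ ((h + m) * ((3 * m ^ 21) * (6 * m ^ 21))) := by rw [← pow_mul]
    _ ≤ 2 ^ (m ^ 44) := by
        refine Nat.pow_le_pow_right (by norm_num) ?_
        calc (h + m) * ((3 * m ^ 21) * (6 * m ^ 21)) ≤ (2 * m) * ((3 * m ^ 21) * (6 * m ^ 21)) :=
              Nat.mul_le_mul_right _ (by omega)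
          _ = 36 * m ^ 43 := by ring
          _ ≤ m * m ^ 43 := Nat.mul_le_mul_right _ (by omega)
          _ = m ^ 44 := by ring

theorem mm_facts (q h : ℕ) (hq : 1 ≤ q) (hh : 1 ≤ h) :
    1301 ≤ (1300 * h ^ 2) ^ q + 1 ∧ h ≤ (1300 * h ^ 2) ^ q + 1 ∧
      ((1300 * h ^ 2) ^ q + 1) ^ 44 ≤ (1301 * h) ^ (1000 * q) := by
  have h1 : 1300 * h ^ 2 ≤ (1300 * h ^ 2) ^ q := by
    calc 1300 * h ^ 2 = (1300 * h ^ 2) ^ 1 := (pow_one _).symm
      _ ≤ _ := Nat.pow_le_pow_right (by positivity) hq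
  have h2 : 1 ≤ h ^ 2 := Nat.one_le_pow _ _ hh
  have h3 : h ≤ h ^ 2 := by nlinarith
  refine ⟨by omega, by omega, ?_⟩
  have h4 : (1300 * h ^ 2) ^ q < ((1301 * h) ^ 2) ^ q := by
    refine Nat.pow_lt_pow_left ?_ (by omega)
    nlinarith
  calc ((1300 * h ^ 2) ^ q + 1) ^ 44 ≤ (((1301 * h) ^ 2) ^ q) ^ 44 := Nat.pow_le_pow_left h4 _
    _ = (1301 * h) ^ (88 * q) := by rw [← pow_mul, ← pow_mul]; congr 1; ring
    _ ≤ (1301 * h) ^ (1000 * q) := Nat.pow_le_pow_right (by positivity) (by omega)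

theorem hset_hits (K : Type) [Field K] [CharZero K] (D h N s e r : ℕ)
    (hh : 1 ≤ h) (hN : N ≤ 2 ^ h) (hs' : s < 2 ^ h) (he : e ≤ h) (hr : r ≤ h ^ 2)
    (F : Fin s → MvPolynomial (Fin N) K) (d : Fin s → ℕ) (hF : IsCirc e r F d)
    (hd : ∀ i, d i ≤ D) (i0 : Fin s) (h0 : F i0 ≠ 0) (hdeg : (F i0).totalDegree < 2 ^ h) :
    ∃ x ∈ hset D h N, eval (fun i => (x i : K)) (F i0) ≠ 0 := by
  refine hs_hits K D h N s e r (mm D h) (mm D h ^ 10) _ _ rfl (prm_prime _) (prm_ge _) hh hN hs'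
    he hr ?_ F d hF hd i0 h0 hdeg
  rw [mm_eq]
  push_cast
  linarith

theorem hset_card (D h N : ℕ) (hh : 1 ≤ h) :
    (hset D h N).card ≤ 2 ^ (1301 * h) ^ (10 ^ (2 * D + 6)) := by
  obtain ⟨q, hq⟩ : ∃ q, q = 10 ^ (2 * D + 3) := ⟨_, rfl⟩
  have hq1 : 1 ≤ q := by rw [hq]; exact Nat.one_le_pow _ _ (by norm_num)
  obtain ⟨h1, h2, h3⟩ := mm_facts q h hq1 hh
  obtain ⟨m, hm⟩ : ∃ m, m = mm D h := ⟨_, rfl⟩
  have hmq : m = (1300 * h ^ 2) ^ q + 1 := by rw [hm, mm_eq, hq]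
  have haa : aa m ≤ 2 * m := aa_le_two m
  rw [← hmq] at h1 h2 h3
  have hp : prm ((aa m + m) * m ^ 10 * m ^ 10) ≤ 6 * m ^ 21 := by
    have hl : (aa m + m) * m ^ 10 * m ^ 10 ≤ 3 * m ^ 21 := by
      calc (aa m + m) * m ^ 10 * m ^ 10 ≤ (3 * m) * m ^ 10 * m ^ 10 := by gcongr; omega
        _ = 3 * m ^ 21 := by ring
    have h0 : (aa m + m) * m ^ 10 * m ^ 10 ≠ 0 := by
      have : 0 < (aa m + m) * m ^ 10 * m ^ 10 := by positivity
      omega
    exact (prm_le h0).trans (by omega)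
  have h5 : (hset D h N).card ≤ 2 ^ m ^ 44 := by
    have h6 := hs_card h N (mm D h) (mm D h ^ 10)
      (prm ((aa (mm D h) + mm D h) * mm D h ^ 10 * mm D h ^ 10)) ⟨0, mm_pos D h⟩ rfl
      (by rw [← hm]; exact h1) (by rw [← hm]; exact hp) (by rw [← hm]; exact h2)
    rw [hm]
    exact h6
  refine h5.trans (Nat.pow_le_pow_right (by norm_num) (h3.trans (le_of_eq ?_)))
  rw [hq]
  congr 1
  rw [show 2 * D + 6 = (2 * D + 3) + 3 by ring, pow_add _ (2 * D + 3) 3]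
  ring

end Pool.Agent.Work.MP_3c5c20_lc.PIT
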