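import Pool.Agent.Work.MP_3c5c20_lc.PIT.Root
import Pool.Agent.Work.MP_3c5c20_lc.Bd.B01

/-!
# The hitting property of the generator of a design (assembled)
-/

namespace Pool.Agent.Work.MP_3c5c20_lc.PIT

open Pool.Agent.Work.MP_499dc6_lc

theorem hitG : S_HitG := pr_HitG noRoot pr_Special CDG.pr_CircSubstG

end Pool.Agent.Work.MP_3c5c20_lc.PIT
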