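import Pool.Agent.Work.MP_3c5c20_lc.Bd.B01

/-!
# Item Compose: substitution of polynomials with few variables into a circuit
-/

namespace Pool.Agent.Work.MP_3c5c20_lc.PIT

open MvPolynomial Pool.Agent.Work.MP_499dc6_lc.CD Pool.Agent.Work.MP_499dc6_lc.CDG

namespace NCompose

/-- A polynomial of degree at most one. -/
theorem lin_form {K : Type} [Field K] {N : ℕ} (l : MvPolynomial (Fin N) K)
    (hl : l.totalDegree ≤ 1) :
    l = C (coeff 0 l) + ∑ t : Fin N, C (coeff (Finsupp.single t 1) l) * X t := by
  classical
  ext m
  rw [coeff_add, coeff_C, coeff_sum]
  simp only [coeff_C_mul, coeff_X]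
  by_cases h0 : m = 0
  · subst h0
    simp
  · by_cases h1 : ∃ t : Fin N, m = Finsupp.single t 1
    · obtain ⟨t, rfl⟩ := h1
      rw [if_neg (fun h => h0 h.symm), zero_add]
      rw [Finset.sum_eq_single t]
      · simp
      · intro u _ hut
        rw [if_neg, mul_zero]
        intro h
        have h2 := DFunLike.congr_fun h t
        simp [hut] at h2
      · intro h
        exact absurd (Finset.mem_univ t) h
    · have h2 : coeff m l = 0 := by
        apply coeff_eq_zero_of_totalDegree_lt
        refine lt_of_le_of_lt hl ?_
        by_contra hcon
        push Not at hcon
        apply h1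
        have hne : m.support.Nonempty := by
          rw [Finsupp.support_nonempty_iff]
          exact h0
        obtain ⟨t, ht⟩ := hne
        refine ⟨t, ?_⟩
        have hmt : 1 ≤ m t := Nat.one_le_iff_ne_zero.mpr (Finsupp.mem_support_iff.mp ht)
        ext u
        by_cases hu : u = t
        · subst hu
          have : m u ≤ ∑ i ∈ m.support, m i := Finset.single_le_sum (fun _ _ => Nat.zero_le _) ht
          simp
          omega
        · rw [Finsupp.single_apply, if_neg (fun h => hu h.symm)]
          by_contra hmu
          have hus : u ∈ m.support := Finsupp.mem_support_iff.mpr hmu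
          have h3 : m u + m t ≤ ∑ i ∈ m.support, m i := by
            rw [← Finset.sum_pair hu]
            apply Finset.sum_le_sum_of_subset
            intro x hx
            simp only [Finset.mem_insert, Finset.mem_singleton] at hx
            rcases hx with rfl | rfl
            · exact hus
            · exact ht
          omega
      rw [h2, if_neg (fun h => h0 h.symm), zero_add, eq_comm]
      apply Finset.sum_eq_zero
      intro t _
      rw [if_neg, mul_zero]
      intro h
      exact h1 ⟨t, h.symm⟩

theorem card_vars_rename {K σ τ : Type} [Field K] (f : σ → τ) (g : MvPolynomial σ K) :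
    (rename f g).vars.card ≤ g.vars.card := by
  classical
  exact (Finset.card_le_card (vars_rename f g)).trans Finset.card_image_le

end NCompose

open NCompose

theorem pr_Compose : S_Compose := by
  intro K _ N s r ka D σ _ F d h hF hd hh
  classical
  set a := Fintype.card σ with ha
  let e : σ ≃ Fin a := Fintype.equivFin σ
  let F' : Fin (a + N + s) → MvPolynomial σ K :=
    Fin.addCases (Fin.addCases (fun v => X (e.symm v)) h) (fun i => aeval h (F i))
  let d' : Fin (a + N + s) → ℕ :=
    Fin.addCases (Fin.addCases (fun _ => 0) (fun _ => 1)) (fun i => d i + 1)
  have F1 : ∀ v : Fin a, F' (Fin.castAdd s (Fin.castAdd N v)) = X (e.symm v) := by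
    intro v; simp [F']
  have F2 : ∀ t : Fin N, F' (Fin.castAdd s (Fin.natAdd a t)) = h t := by
    intro t; simp [F']
  have F3 : ∀ i : Fin s, F' (Fin.natAdd (a + N) i) = aeval h (F i) := by
    intro i; simp [F']
  have D1 : ∀ v : Fin a, d' (Fin.castAdd s (Fin.castAdd N v)) = 0 := by
    intro v; simp [d']
  have D2 : ∀ t : Fin N, d' (Fin.castAdd s (Fin.natAdd a t)) = 1 := by
    intro t; simp [d']
  have D3 : ∀ i : Fin s, d' (Fin.natAdd (a + N) i) = d i + 1 := by
    intro i; simp [d']
  refine ⟨F', d', ?_, ?_, fun i => ⟨_, F3 i⟩⟩
  · intro i
    refine Fin.addCases (fun i => ?_) (fun i => ?_) i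
    · refine Fin.addCases (fun v => ?_) (fun t => ?_) i
      · left
        refine ⟨X (e.symm v), fun _ => 0, ?_, ?_, ?_⟩
        · exact (totalDegree_X _).le
        · intro j hj
          exact absurd rfl hj
        · rw [F1]
          simp
      · right; right
        let ι : σ → Fin (a + N + s) := fun v => Fin.castAdd s (Fin.castAdd N (e v))
        refine ⟨rename ι (h t), ?_, ?_, ?_⟩
        · exact ((card_vars_rename _ _).trans (hh t)).trans (le_max_right _ _)
        · intro j hj
          obtain ⟨u, _, rfl⟩ := mem_vars_rename _ _ hj
          constructor
          · rw [Fin.lt_def]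
            simp only [ι, Fin.val_castAdd, Fin.val_natAdd]
            have := (e u).2
            omega
          · simp only [ι]
            rw [D1, D2]
            exact Nat.zero_lt_one
        · rw [F2, aeval_rename]
          have : (F' ∘ ι) = X := by
            funext v
            simp only [Function.comp, ι]
            rw [F1, Equiv.symm_apply_apply]
          rw [this, aeval_X_left_apply]
    · rcases hF i with ⟨l, c, hl, hc, hFi⟩ | ⟨k, hk, hFi⟩ | ⟨g, hg, hgj, hFi⟩
      · left
        refine ⟨C (coeff 0 l), Fin.addCases (Fin.addCases (fun _ => 0)
          (fun t => coeff (Finsupp.single t 1) l)) c, ?_, ?_, ?_⟩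
        · rw [totalDegree_C]; exact Nat.zero_le _
        · intro j
          refine Fin.addCases (fun j => ?_) (fun j => ?_) j
          · refine Fin.addCases (fun v => ?_) (fun t => ?_) j
            · intro hj
              simp at hj
            · intro _
              constructor
              · rw [Fin.lt_def]
                simp only [Fin.val_castAdd, Fin.val_natAdd]
                have := t.2
                omega
              · rw [D2, D3]
                omega
          · intro hj
            have hj' : c j ≠ 0 := by simpa using hj
            obtain ⟨h1, h2⟩ := hc j hj'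
            constructor
            · rw [Fin.lt_def] at h1 ⊢
              simp only [Fin.val_natAdd]
              omega
            · rw [D3, D3]
              omega
        · rw [F3, hFi, Fin.sum_univ_add, Fin.sum_univ_add]
          simp only [Fin.addCases_left, Fin.addCases_right, F1, F2, F3, map_zero, zero_mul,
            Finset.sum_const_zero, zero_add]
          rw [map_add, map_sum]
          conv_lhs => rw [lin_form l hl]
          simp only [map_add, map_sum, map_mul, aeval_X, aeval_C, algebraMap_eq]
          ring
      · right; left
        refine ⟨Fin.addCases (Fin.addCases (fun _ => 0) (fun _ => 0)) k, ?_, ?_⟩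
        · intro j
          refine Fin.addCases (fun j => ?_) (fun j => ?_) j
          · refine Fin.addCases (fun v => ?_) (fun t => ?_) j
            · intro hj
              simp at hj
            · intro hj
              simp at hj
          · intro hj
            have hj' : k j ≠ 0 := by simpa using hj
            obtain ⟨h1, h2⟩ := hk j hj'
            constructor
            · rw [Fin.lt_def] at h1 ⊢
              simp only [Fin.val_natAdd]
              omega
            · rw [D3, D3]
              omega
        · rw [F3, hFi, Fin.prod_univ_add, Fin.prod_univ_add]
          simp only [Fin.addCases_left, Fin.addCases_right, F3, pow_zero,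
            Finset.prod_const_one, one_mul]
          rw [map_prod]
          simp only [map_pow]
      · right; right
        refine ⟨rename (Fin.natAdd (a + N)) g, ?_, ?_, ?_⟩
        · exact ((card_vars_rename _ _).trans hg).trans (le_max_left _ _)
        · intro j hj
          obtain ⟨u, hu, rfl⟩ := mem_vars_rename _ _ hj
          obtain ⟨h1, h2⟩ := hgj u hu
          constructor
          · rw [Fin.lt_def] at h1 ⊢
            simp only [Fin.val_natAdd]
            omega
          · rw [D3, D3]
            omega
        · rw [F3, hFi, aeval_rename]
          have : (F' ∘ Fin.natAdd (a + N)) = fun j => aeval h (F j) := by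
            funext j
            simp only [Function.comp]
            rw [F3]
          rw [this, ← comp_aeval_apply]
  · intro i
    refine Fin.addCases (fun i => ?_) (fun i => ?_) i
    · refine Fin.addCases (fun v => ?_) (fun t => ?_) i
      · rw [D1]; exact Nat.zero_le _
      · rw [D2]; omega
    · rw [D3]
      have := hd i
      omega

end Pool.Agent.Work.MP_3c5c20_lc.PIT
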