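import Pool.Agent.Work.MP_3c5c20_lc.Bd.B01

/-!
# Quasi-polynomial identity testing for constant depth circuits: the hybrid argument
-/

set_option autoImplicit false

namespace Pool.Agent.Work.MP_3c5c20_lc.PIT

open MvPolynomial Pool.Agent.Work.MP_499dc6_lc.CD Pool.Agent.Work.MP_499dc6_lc.CDG

namespace NHit

/-- The hybrids. -/
noncomputable def th (K : Type) [Field K] (m n p ka N : ℕ) [NeZero p] (z0 : Fin n) (t : ℕ)
    (i : Fin N) : MvPolynomial ((VV m n × Fin p) ⊕ Fin N) K :=
  if (i : ℕ) < t then rename Sum.inl (Gen K m n p ka z0 i) else X (Sum.inr i)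

theorem rename_eq {K α β : Type} [Field K] (f : α → β) (P : MvPolynomial α K) :
    rename f P = aeval (fun i => (X (f i) : MvPolynomial β K)) P := by
  have h : rename f = aeval (fun i => (X (f i) : MvPolynomial β K)) := by
    apply algHom_ext
    intro i
    rw [rename_X, aeval_X]
  rw [h]

theorem exists_step (N : ℕ) (P : ℕ → Prop) (h0 : P 0) (hN : ¬ P N) :
    ∃ t, t < N ∧ P t ∧ ¬ P (t + 1) := by
  by_contra hcon
  push Not at hcon
  have : ∀ t, t ≤ N → P t := by
    intro t
    induction t with
    | zero => exact fun _ => h0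
    | succ t ih => exact fun ht => hcon t (by omega) (ih (by omega))
  exact hN (this N le_rfl)

theorem natDegree_aeval {K A σ : Type} [Field K] [CommRing A] [Algebra K A]
    (g : σ → Polynomial A) (hg : ∀ i, (g i).natDegree ≤ 1) (P : MvPolynomial σ K) :
    (aeval g P).natDegree ≤ P.totalDegree := by
  classical
  conv_lhs => rw [P.as_sum]
  rw [map_sum]
  refine Polynomial.natDegree_sum_le_of_forall_le _ _ fun s hs => ?_
  rw [aeval_monomial]
  refine (Polynomial.natDegree_mul_le).trans ?_
  have h1 : (algebraMap K (Polynomial A) (coeff s P)).natDegree = 0 := by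
    rw [IsScalarTower.algebraMap_apply K A (Polynomial A), Polynomial.algebraMap_eq]
    exact Polynomial.natDegree_C _
  rw [h1, zero_add]
  unfold Finsupp.prod
  refine (Polynomial.natDegree_prod_le _ _).trans ?_
  have h2 : ∀ i ∈ s.support, (g i ^ s i).natDegree ≤ s i := by
    intro i _
    refine (Polynomial.natDegree_pow_le).trans ?_
    exact (Nat.mul_le_mul_left _ (hg i)).trans (by rw [mul_one])
  refine (Finset.sum_le_sum h2).trans ?_
  exact le_totalDegree hs

end NHit

theorem pr_Hit (hNR : S_NoRoot) (hSp : S_Special) (hC : S_Compose) (hDig : S_Dig) : S_Hit := by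
  classical
  intro K _ _ m n p ka N s D r E _ z0 F d i0 hn hp hpp hN hka hF hd hF0 hE hnum hzero
  set f : ℕ → MvPolynomial ((VV m n × Fin p) ⊕ Fin N) K := fun t =>
    aeval (NHit.th K m n p ka N z0 t) (F i0) with hf
  have hf0 : f 0 ≠ 0 := by
    have h1 : NHit.th K m n p ka N z0 0 = fun i => X (Sum.inr i) := by
      funext i
      unfold NHit.th
      rw [if_neg (Nat.not_lt_zero _)]
    have h2 : f 0 = rename Sum.inr (F i0) := by
      simp only [hf]
      rw [h1, NHit.rename_eq]
    rw [h2]
    intro h
    exact hF0 ((rename_injective _ Sum.inr_injective) (by rw [h, map_zero]))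
  have hfN : f N = 0 := by
    have h1 : NHit.th K m n p ka N z0 N = fun i : Fin N => (rename Sum.inl
        (Gen K m n p ka z0 (i : ℕ)) : MvPolynomial ((VV m n × Fin p) ⊕ Fin N) K) := by
      funext i
      unfold NHit.th
      rw [if_pos i.2]
    simp only [hf]
    rw [h1, ← comp_aeval_apply, hzero, map_zero]
  obtain ⟨t, htN, ht0, ht1⟩ := NHit.exists_step N (fun t => f t ≠ 0) hf0 (not_not.2 hfN)
  have ht1' : f (t + 1) = 0 := not_not.1 ht1
  -- the specialisation
  set π : (VV m n × Fin p) ⊕ Fin N → Option (Option (VV m n)) := fun a =>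
    Sum.elim (fun vb : VV m n × Fin p =>
      if vb.2 = dig p ka t (pos m n vb.1) then some (some vb.1) else none)
      (fun i : Fin N => if (i : ℕ) = t then some none else none) a with hπ
  have hπinj : ∀ a a' b, π a = some b → π a' = some b → a = a' := by
    intro a a' b h1 h2
    rcases a with ⟨v, x⟩ | i
    · rcases a' with ⟨v', x'⟩ | i'
      · simp only [hπ, Sum.elim_inl] at h1 h2
        split_ifs at h1 with h3
        split_ifs at h2 with h4
        rw [← h1] at h2
        have h5 : v' = v := Option.some.inj (Option.some.inj h2)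
        subst h5
        rw [h3, h4]
      · simp only [hπ, Sum.elim_inl, Sum.elim_inr] at h1 h2
        split_ifs at h1 with h3
        split_ifs at h2 with h4
        rw [← h1] at h2
        exact absurd (Option.some.inj h2) (by simp)
    · rcases a' with ⟨v', x'⟩ | i'
      · simp only [hπ, Sum.elim_inl, Sum.elim_inr] at h1 h2
        split_ifs at h1 with h3
        split_ifs at h2 with h4
        rw [← h1] at h2
        exact absurd (Option.some.inj h2) (by simp)
      · simp only [hπ, Sum.elim_inr] at h1 h2
        split_ifs at h1 with h3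
        split_ifs at h2 with h4
        rw [Fin.ext (h3.trans h4.symm)]
  obtain ⟨c, hc⟩ := hSp _ _ K (f t) π ht0 hπinj
  set σ0 : MvPolynomial ((VV m n × Fin p) ⊕ Fin N) K →ₐ[K] MvPolynomial (Option (VV m n)) K :=
    aeval (fun a => ((π a).elim (C (c a)) X : MvPolynomial (Option (VV m n)) K)) with hσ0
  set h : Fin N → MvPolynomial (Option (VV m n)) K := fun i =>
    σ0 (NHit.th K m n p ka N z0 t i) with hh
  have hR : σ0 (f t) = aeval h (F i0) := by
    simp only [hf, hh]
    rw [comp_aeval_apply]
  have hlt : ∀ i : Fin N, (i : ℕ) < t → h i = bind₁ (fun v : VV m n =>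
      ((π (Sum.inl (v, dig p ka i (pos m n v)))).elim
        (C (c (Sum.inl (v, dig p ka i (pos m n v))))) X : MvPolynomial (Option (VV m n)) K))
      (PW K m n z0) := by
    intro i hi
    simp only [hh]
    unfold NHit.th
    rw [if_pos hi, hσ0, aeval_rename]
    unfold Gen
    rw [comp_aeval_apply]
    have e : (fun v : VV m n => (aeval ((fun a => ((π a).elim (C (c a)) X :
        MvPolynomial (Option (VV m n)) K)) ∘ Sum.inl))
        (X (v, dig p ka i (pos m n v)) : MvPolynomial (VV m n × Fin p) K)) = fun v =>
        ((π (Sum.inl (v, dig p ka i (pos m n v)))).elim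
        (C (c (Sum.inl (v, dig p ka i (pos m n v))))) X : MvPolynomial (Option (VV m n)) K) := by
      funext v
      rw [aeval_X]
      rfl
    rw [e]
    rfl
  have heq : ∀ i : Fin N, (i : ℕ) = t → h i = X none := by
    intro i hi
    simp only [hh]
    unfold NHit.th
    rw [if_neg (by omega), hσ0, aeval_X]
    simp only [hπ, Sum.elim_inr, if_pos hi, Option.elim_some]
  have hgt : ∀ i : Fin N, t < (i : ℕ) → h i = C (c (Sum.inr i)) := by
    intro i hi
    simp only [hh]
    unfold NHit.th
    rw [if_neg (by omega), hσ0, aeval_X]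
    simp only [hπ, Sum.elim_inr, if_neg (by omega : ¬ (i : ℕ) = t), Option.elim_none]
  have hsub : ∀ i : Fin N, (i : ℕ) < t → (h i).vars ⊆ (Finset.univ.filter fun v : VV m n =>
      dig p ka i (pos m n v) = dig p ka t (pos m n v)).image some := by
    intro i hi
    rw [hlt i hi]
    refine (vars_bind₁ _ _).trans ?_
    intro o ho
    rw [Finset.mem_biUnion] at ho
    obtain ⟨v, _, hv⟩ := ho
    rw [Finset.mem_image]
    refine ⟨v, ?_, ?_⟩
    · rw [Finset.mem_filter]
      refine ⟨Finset.mem_univ _, ?_⟩
      by_contra hne
      simp only [hπ, Sum.elim_inl, if_neg hne, Option.elim_none, vars_C] at hv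
      exact absurd hv (Finset.notMem_empty _)
    · by_cases hne : dig p ka i (pos m n v) = dig p ka t (pos m n v)
      · simp only [hπ, Sum.elim_inl, if_pos hne, Option.elim_some, vars_X,
          Finset.mem_singleton] at hv
        exact hv.symm
      · simp only [hπ, Sum.elim_inl, if_neg hne, Option.elim_none, vars_C] at hv
        exact absurd hv (Finset.notMem_empty _)
  have hvars : ∀ i, (h i).vars.card ≤ ka := by
    intro i
    rcases lt_trichotomy (i : ℕ) t with hi | hi | hi
    · have h1 := hDig m n p ka i t hp hpp (i.2.trans_le hN) (htN.trans_le hN) hi.ne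
      exact (Finset.card_le_card (hsub i hi)).trans (Finset.card_image_le.trans h1)
    · rw [heq i hi, vars_X, Finset.card_singleton]
      exact hka
    · rw [hgt i hi, vars_C, Finset.card_empty]
      exact Nat.zero_le _
  obtain ⟨F', d', hF', hd', hcirc⟩ := hC K N s r ka D (Option (VV m n)) F d h hF hd hvars
  obtain ⟨j, hj⟩ := hcirc i0
  -- the degree
  have hdeg : (optionEquivLeft K (VV m n) (F' j)).natDegree ≤ E := by
    have h1 : optionEquivLeft K (VV m n) (F' j) =
        aeval (fun i => optionEquivLeft K (VV m n) (h i)) (F i0) := by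
      rw [hj]
      exact comp_aeval_apply (φ := (optionEquivLeft K (VV m n)).toAlgHom) (f := h) (F i0)
    rw [h1]
    refine (NHit.natDegree_aeval _ (fun i => ?_) _).trans hE
    rcases lt_trichotomy (i : ℕ) t with hi | hi | hi
    · rw [natDegree_optionEquivLeft]
      have h2 : none ∉ (h i).vars := by
        intro h3
        have h4 := hsub i hi h3
        rw [Finset.mem_image] at h4
        obtain ⟨v, _, hv⟩ := h4
        exact absurd hv (by simp)
      rw [mem_vars_iff_degreeOf_ne_zero, not_not] at h2
      rw [h2]
      exact Nat.zero_le _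
    · rw [heq i hi, optionEquivLeft_X_none]
      exact Polynomial.natDegree_X_le
    · rw [hgt i hi, optionEquivLeft_C, Polynomial.natDegree_C]
      exact Nat.zero_le _
  -- evaluation at the hard polynomial
  have heval : (optionEquivLeft K (VV m n) (F' j)).eval (PW K m n z0) = 0 := by
    set ev : MvPolynomial (Option (VV m n)) K →ₐ[K] MvPolynomial (VV m n) K :=
      ((Polynomial.aeval (PW K m n z0) : Polynomial (MvPolynomial (VV m n) K)
        →ₐ[MvPolynomial (VV m n) K] MvPolynomial (VV m n) K).restrictScalars K).comp
        (optionEquivLeft K (VV m n)).toAlgHom with hev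
    have hevP : ∀ P, ev P = (optionEquivLeft K (VV m n) P).eval (PW K m n z0) := fun P => rfl
    have hstep : ∀ i : Fin N, ev (σ0 (NHit.th K m n p ka N z0 t i)) =
        ev (σ0 (NHit.th K m n p ka N z0 (t + 1) i)) := by
      intro i
      rcases lt_trichotomy (i : ℕ) t with hi | hi | hi
      · unfold NHit.th
        rw [if_pos hi, if_pos (by omega)]
      · have h1 : ev (σ0 (NHit.th K m n p ka N z0 t i)) = PW K m n z0 := by
          have h2 := heq i hi
          simp only [hh] at h2
          rw [h2, hevP, optionEquivLeft_X_none, Polynomial.eval_X]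
        have h3 : ev (σ0 (NHit.th K m n p ka N z0 (t + 1) i)) = PW K m n z0 := by
          unfold NHit.th
          rw [if_pos (by omega), hσ0, aeval_rename]
          unfold Gen
          rw [comp_aeval_apply, comp_aeval_apply]
          simp only [aeval_X, Function.comp_apply, hπ, Sum.elim_inl, hi, if_true,
            Option.elim_some, hevP, optionEquivLeft_X_some, Polynomial.eval_C]
          exact aeval_X_left_apply _
        rw [h1, h3]
      · unfold NHit.th
        rw [if_neg (by omega), if_neg (by omega)]
    rw [← hevP, hj, comp_aeval_apply]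
    have h4 : (fun i => ev (h i)) = fun i => ev (σ0 (NHit.th K m n p ka N z0 (t + 1) i)) := by
      funext i
      exact hstep i
    rw [h4]
    have h5 : (aeval fun i => ev (σ0 (NHit.th K m n p ka N z0 (t + 1) i))) (F i0) =
        ev (σ0 (f (t + 1))) := by
      exact (comp_aeval_apply (φ := ev.comp σ0) (f := NHit.th K m n p ka N z0 (t + 1))
        (F i0)).symm
    rw [h5, ht1', map_zero, map_zero]
  have hne : F' j ≠ 0 := by
    rw [hj, ← hR]
    exact hc
  have hfin := hNR K m n z0 (Fintype.card (Option (VV m n)) + N + s) (D + 1) 1 (max r ka) E F' d'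
    j hn hF' hd' hne hdeg heval
  have hcard : Fintype.card (Option (VV m n)) = (aa m + m) * n * n + 1 := by
    simp only [Fintype.card_option, Fintype.card_sum, Fintype.card_prod, Fintype.card_fin]
    ring
  rw [hcard] at hfin
  exact absurd hnum (not_lt.2 hfin)

end Pool.Agent.Work.MP_3c5c20_lc.PIT
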