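import Pool.Agent.Work.MP_3c5c20_lc.Bd.B01
import Pool.Agent.Work.MP_499dc6_lc.Bd.B03

/-!
# Lower bound for the measure of the hard polynomial
-/

namespace Pool.Agent.Work.MP_3c5c20_lc.PIT

open MvPolynomial Pool.Agent.Work.MP_499dc6_lc.CD Pool.Agent.Work.MP_499dc6_lc.CDG

namespace NPWLow

/-- the rank of a submatrix -/
theorem rank_sub {A B I J K : Type} [Fintype A] [Fintype B] [Fintype I] [Fintype J]
    [Field K] (M : Matrix A B K) (r : I → A) (c : J → B) :
    (M.submatrix r c).rank ≤ M.rank := by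
  classical
  have h : M.submatrix r c = (1 : Matrix A A K).submatrix r id *
      (M * (1 : Matrix B B K).submatrix id c) := by
    ext i j
    simp [Matrix.mul_apply, Matrix.one_apply]
  rw [h]
  exact (Matrix.rank_mul_le_right _ _).trans (Matrix.rank_mul_le_left _ _)

/-- the third hypothesis of the hardness statement -/
theorem cond3 (m n : ℕ) (hm : 13 ≤ m) (hn : n = m ^ 10) :
    10 * (m : ℝ) ^ 2 ≤ (n : ℝ) ^ (1 - 1 / √2) := by
  have hs := sqrt2_bounds
  have hmR : (13 : ℝ) ≤ m := by exact_mod_cast hm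
  have hm0 : (0 : ℝ) < m := by linarith
  have hn' : (n : ℝ) = (m : ℝ) ^ (10 : ℝ) := by
    rw [hn]; push_cast
    rw [← Real.rpow_natCast]; norm_num
  rw [hn', ← Real.rpow_mul hm0.le]
  have h0 : (0 : ℝ) < √2 := by linarith [hs.1]
  have h1 : 1 / √2 ≤ 0.71 := by
    rw [div_le_iff₀ h0]; linarith [hs.1]
  have h2 : (2 : ℝ) + 9 / 10 ≤ 10 * (1 - 1 / √2) := by linarith
  have h3 : (m : ℝ) ^ ((2 : ℝ) + 9 / 10) ≤ (m : ℝ) ^ (10 * (1 - 1 / √2)) :=
    Real.rpow_le_rpow_of_exponent_le (by linarith) h2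
  have h4 : (10 : ℝ) ≤ (m : ℝ) ^ (9 / 10 : ℝ) := by
    have h5 : (10 : ℝ) = (10 ^ 10 : ℝ) ^ (1 / 10 : ℝ) := by
      rw [← Real.rpow_natCast, ← Real.rpow_mul (by norm_num)]
      norm_num
    have h6 : (13 : ℝ) ^ (9 / 10 : ℝ) = ((13 : ℝ) ^ 9) ^ (1 / 10 : ℝ) := by
      rw [← Real.rpow_natCast, ← Real.rpow_mul (by norm_num)]
      norm_num
    calc (10 : ℝ) = (10 ^ 10 : ℝ) ^ (1 / 10 : ℝ) := h5
      _ ≤ ((13 : ℝ) ^ 9) ^ (1 / 10 : ℝ) :=
          Real.rpow_le_rpow (by norm_num) (by norm_num) (by norm_num)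
      _ = (13 : ℝ) ^ (9 / 10 : ℝ) := h6.symm
      _ ≤ (m : ℝ) ^ (9 / 10 : ℝ) := Real.rpow_le_rpow (by norm_num) hmR (by norm_num)
  calc 10 * (m : ℝ) ^ 2 ≤ (m : ℝ) ^ (9 / 10 : ℝ) * (m : ℝ) ^ 2 := by
        apply mul_le_mul_of_nonneg_right h4 (by positivity)
    _ = (m : ℝ) ^ ((2 : ℝ) + 9 / 10) := by
        rw [Real.rpow_add hm0, mul_comm]
        norm_num
    _ ≤ _ := h3

end NPWLow

open NPWLow

theorem pr_PWLow (h1 : S_BBrank) (h2 : S_Hard) : S_PWLow := by
  intro K _ m n z0 c hm hn hBB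
  have hm1 : 1 ≤ m := by omega
  have hm2 : 2 ≤ m := by omega
  have hmR : (13 : ℝ) ≤ m := by exact_mod_cast hm
  have hnm : 10 * m ≤ n := by
    rw [hn]
    calc 10 * m ≤ m ^ 9 * m := by
          apply Nat.mul_le_mul_right
          calc 10 ≤ m ^ 1 := by rw [pow_one]; omega
            _ ≤ m ^ 9 := Nat.pow_le_pow_right (by omega) (by norm_num)
      _ = m ^ 10 := by ring
  have hn1 : 1 ≤ n := by omega
  have hnR : (130 : ℝ) ≤ n := by
    have : 130 ≤ n := by omega
    exact_mod_cast this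
  have haa1 : m + 1 ≤ aa m := aa_pos hm1
  set a : ℝ := (aa m : ℝ) with ha
  have haR : (m : ℝ) + 1 ≤ a := by rw [ha]; exact_mod_cast haa1
  set L := LL m n with hL
  have : NeZero (aa m) := ⟨by omega⟩
  have : NeZero n := ⟨by omega⟩
  have : NeZero m := ⟨by omega⟩
  have hcY : Fintype.card (Fin (aa m) × Fin n × Fin n) = aa m * n * n := by
    simp [mul_assoc]
  have hcZ : Fintype.card (Fin m × Fin n × Fin n) = m * n * n := by
    simp [mul_assoc]
  have hN1 : 1 ≤ aa m * n * n := Nat.mul_pos (Nat.mul_pos (by omega) (by omega)) (by omega)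
  have hN2 : 1 ≤ m * n * n := Nat.mul_pos (Nat.mul_pos (by omega) (by omega)) (by omega)
  have hT2 : 0 < (TT (m * n * n) (m * n) : ℝ) := TT_pos hN2
  have hT1 : 0 < (TT (aa m * n * n) L : ℝ) := TT_pos hN1
  -- the rank of the matrix
  obtain ⟨I, hI1, hI2, r, cc, hone, hcard⟩ := h2 K m n L (m * n) z0 hm1 hn1
    (cond_rY hm2 hnm) (cond_rZ hm2 hnm) (cond3 m n hm hn)
  have hrk : (Fintype.card I : ℝ) ≤
      ((mat (PW K m n z0) (L + aa m) (m * n) L (m * n + m)).rank : ℝ) := by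
    have h3 := rank_sub (mat (PW K m n z0) (L + aa m) (m * n) L (m * n + m)) r cc
    rw [hone, Matrix.rank_one] at h3
    exact_mod_cast h3
  have hbe : ((Fintype.card (Fin m × Fin n × Fin n) : ℝ) + ((m * n : ℕ) : ℝ)) /
      (((m * n : ℕ) : ℝ) + 1) ≤ Real.exp (√2 * alp n) := by
    have h3 := cond_be (m := m) (n := n)
    rw [hcZ]
    have h4 : m * n * n = m * (n * n) := by ring
    rw [h4]
    exact h3
  have hal : Real.exp (alp n) ≤ ((Fintype.card (Fin (aa m) × Fin n × Fin n) : ℝ) +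
      ((L : ℝ) + ((aa m : ℕ) : ℝ)) - 1) / ((L : ℝ) + ((aa m : ℕ) : ℝ)) := by
    have h3 := exp_cond1 hm2 hnm
    rw [hcY]
    push_cast
    exact h3
  have hup := h1 (Fin (aa m) × Fin n × Fin n) (Fin m × Fin n × Fin n) K (alp n) (√2 * alp n)
    (PW K m n z0) c L (m * n) (aa m) m (by omega) hal hbe hBB
  rw [hcY, hcZ] at hup
  have hmain : (1 / 2 : ℝ) * ((n : ℝ) ^ (m - 1) * TT (aa m * n * n) L *
        TT (m * n * n) (m * n)) ≤
      (TT (aa m * n * n) (L + aa m) : ℝ) * TT (m * n * n) (m * n) *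
        Real.exp (-((aa m : ℝ) * alp n - m * (√2 * alp n)) / 2) * c :=
    (hcard.trans hrk).trans hup
  have hnpos : (0 : ℝ) < n := by linarith
  have hc0 : 0 < c := by
    by_contra hcon
    rw [not_lt] at hcon
    have h3 : (0 : ℝ) < (1 / 2 : ℝ) * ((n : ℝ) ^ (m - 1) * TT (aa m * n * n) L *
        TT (m * n * n) (m * n)) := by positivity
    have h4 : (TT (aa m * n * n) (L + aa m) : ℝ) * TT (m * n * n) (m * n) *
        Real.exp (-((aa m : ℝ) * alp n - m * (√2 * alp n)) / 2) * c ≤ 0 :=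
      mul_nonpos_of_nonneg_of_nonpos (by positivity) hcon
    linarith
  have hgrow := pr_Grow2 (aa m * n * n) L (aa m) hN1
  have hgf := growth_fin hm2 hnm
  have hgr2 : (TT (aa m * n * n) (L + aa m) : ℝ) ≤ TT (aa m * n * n) L *
      Real.exp (a * alp n + 1) := by
    refine hgrow.trans ?_
    apply mul_le_mul_of_nonneg_left _ hT1.le
    push_cast
    exact hgf
  have h5 : (1 / 2 : ℝ) * (n : ℝ) ^ (m - 1) ≤ Real.exp (a * alp n + 1) *
      Real.exp (-(a * alp n - m * (√2 * alp n)) / 2) * c := by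
    have h6 : (1 / 2 : ℝ) * ((n : ℝ) ^ (m - 1) * TT (aa m * n * n) L *
        TT (m * n * n) (m * n)) ≤ (TT (aa m * n * n) L * Real.exp (a * alp n + 1)) *
        TT (m * n * n) (m * n) *
        Real.exp (-(a * alp n - m * (√2 * alp n)) / 2) * c := by
      refine hmain.trans ?_
      gcongr
    have h7 : 0 < (TT (aa m * n * n) L : ℝ) * TT (m * n * n) (m * n) := mul_pos hT1 hT2
    have h8 : (1 / 2 : ℝ) * (n : ℝ) ^ (m - 1) * ((TT (aa m * n * n) L : ℝ) *
        TT (m * n * n) (m * n)) ≤ (Real.exp (a * alp n + 1) *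
      Real.exp (-(a * alp n - m * (√2 * alp n)) / 2) * c) *
        ((TT (aa m * n * n) L : ℝ) * TT (m * n * n) (m * n)) := by
      calc _ = (1 / 2 : ℝ) * ((n : ℝ) ^ (m - 1) * TT (aa m * n * n) L *
        TT (m * n * n) (m * n)) := by ring
        _ ≤ _ := h6
        _ = _ := by ring
    exact le_of_mul_le_mul_right h8 h7
  have h9 : ((m : ℝ) - 1) * Real.log n - Real.log 2 ≤
      (a * alp n + 1) + (-(a * alp n - m * (√2 * alp n)) / 2) + Real.log c := by
    have h6 := Real.log_le_log (by positivity) h5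
    rw [← Real.exp_add, Real.log_mul (Real.exp_pos _).ne' hc0.ne', Real.log_exp,
      Real.log_mul (by norm_num) (by positivity), Real.log_pow, one_div, Real.log_inv] at h6
    have h7 : ((m - 1 : ℕ) : ℝ) = (m : ℝ) - 1 := by
      rw [Nat.cast_sub hm1]; norm_num
    rw [h7] at h6
    linarith
  have hs2 := sqrt2_bounds
  have halp0 : 0 ≤ alp n := by
    unfold alp
    apply div_nonneg (Real.log_nonneg (by linarith)) (by positivity)
  have hsq : √2 * alp n = Real.log (n + 1) := sqrt2_alp n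
  have hlog1 : Real.log ((n : ℝ) + 1) ≤ Real.log n + 1 / n := by
    have h8 : Real.log ((n : ℝ) + 1) = Real.log n + Real.log (1 + 1 / n) := by
      rw [← Real.log_mul (by positivity) (by positivity)]
      congr 1
      field_simp
    rw [h8]
    have h9 : Real.log (1 + 1 / (n : ℝ)) ≤ 1 / n := by
      have := Real.log_le_sub_one_of_pos (show (0 : ℝ) < 1 + 1 / n by positivity)
      linarith
    linarith
  have haup := aa_le m
  rw [← ha] at haup
  have halp_le : alp n ≤ Real.log (n + 1) := by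
    rw [← hsq]
    nlinarith [hs2.1]
  have hmn1 : (m : ℝ) * (1 / n) ≤ 1 := by
    rw [mul_one_div, div_le_one hnpos]
    have : m ≤ n := by omega
    exact_mod_cast this
  have hlog2 : Real.log 2 ≤ 1 := by
    have := Real.log_two_lt_d9; linarith
  have h10 : a * alp n ≤ m * Real.log (n + 1) + alp n := by
    rw [← hsq]
    nlinarith
  have h11 : (m : ℝ) * Real.log (n + 1) ≤ m * Real.log n + 1 := by
    have h12 : (m : ℝ) * Real.log (n + 1) ≤ m * (Real.log n + 1 / n) :=
      mul_le_mul_of_nonneg_left hlog1 (by linarith)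
    have h13 : (m : ℝ) * (Real.log n + 1 / n) = m * Real.log n + m * (1 / n) := by ring
    linarith
  have hlogn : Real.log n ≤ Real.log (n + 1) := Real.log_le_log hnpos (by linarith)
  have hlarge : 2 ≤ Real.log ((n : ℝ) + 1) := by
    rw [Real.le_log_iff_exp_le (by positivity)]
    have h12 : Real.exp 2 ≤ 9 := by
      have h13 := Real.exp_one_lt_d9
      have h14 : Real.exp 2 = Real.exp 1 * Real.exp 1 := by
        rw [← Real.exp_add]; norm_num
      rw [h14]
      nlinarith [Real.exp_pos 1]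
    linarith
  rw [hsq] at h9
  have hfin : -(4 * Real.log ((n : ℝ) + 1)) ≤ Real.log c := by
    nlinarith
  have h14 : Real.exp (-(4 * Real.log ((n : ℝ) + 1))) ≤ c := by
    rw [← Real.le_log_iff_exp_le hc0]
    exact hfin
  have h15 : Real.exp (-(4 * Real.log ((n : ℝ) + 1))) = 1 / ((n : ℝ) + 1) ^ 4 := by
    rw [Real.exp_neg, one_div]
    congr 1
    rw [mul_comm, Real.exp_mul, Real.exp_log (by positivity)]
    norm_num
  rw [← h15]
  exact h14

end Pool.Agent.Work.MP_3c5c20_lc.PIT
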