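import Pool.Agent.Work.MP_499dc6_lc.Bd.B03
import Pool.Agent.Work.MP_499dc6_lc.Bd.B02
import Pool.Agent.Work.MP_499dc6_lc.Bd.B05
import Pool.Agent.Work.MP_3c5c20_lc.Bd.B01
import Pool.Agent.Work.MP_3c5c20_lc.PIT.I_PWLow

/-!
# The hard polynomial is not a root of a small circuit of small depth
-/

namespace Pool.Agent.Work.MP_3c5c20_lc.PIT

open Pool.Agent.Work.MP_499dc6_lc

theorem bbmul : CD.S_BBmul := CD.pr_BBmul CD.pr_BiMul

theorem bbphi : CD.S_BBphi := CD.pr_BBphi CD.pr_BiDec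

theorem spanBB : CD.S_SpanBB := CD.pr_SpanBB CD.pr_BBsmul bbmul CD.pr_BBone CD.pr_Part

theorem prod : CD.S_Prod := CD.pr_Prod (CD.pr_LogDer CD.pr_HcMul) CD.pr_Span spanBB CD.pr_BBsmul

theorem step : CD.S_Step := CD.pr_Step CD.pr_Phi

theorem bbrank : CD.S_BBrank :=
  CD.pr_BBrank CD.pr_MatMul CD.pr_MatZero CD.pr_Grow1 CD.pr_Grow2 CD.pr_BiMul

theorem hard : CD.S_Hard :=
  CD.pr_Hard (CD.pr_Conf CD.pr_Grow1) CD.pr_Walk CD.pr_Tau CD.pr_TauLt CD.pr_CardWalk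

theorem colBB : CDG.S_ColBB := CDG.pr_ColBB CD.pr_BBsmul bbmul CD.pr_BBone CDG.pr_ColCount

theorem circG : CDG.S_CircG :=
  CDG.pr_CircG prod spanBB step CDG.pr_RgBound (CDG.pr_FunComp CD.pr_HcMul) colBB CD.pr_BBsmul
    bbphi CD.pr_Phi

theorem coefBB : S_CoefBB := pr_CoefBB CD.pr_BBsmul circG CDG.pr_CircSubstG pr_Interp

theorem rsBB : S_RSBB := pr_RSBB CD.pr_BBsmul bbmul CD.pr_BBone pr_RSCount

theorem rootBB : S_RootBB :=
  pr_RootBB bbphi step CDG.pr_RgBound CDG.pr_RgMono pr_Mult pr_TayHasse (pr_RootSpan CD.pr_HcMul)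
    rsBB pr_GenPt coefBB CD.pr_BBsmul

theorem noRoot : S_NoRoot :=
  pr_NoRoot rootBB (pr_PWLow bbrank hard) (CD.pr_PWhom CD.pr_BiMul CD.pr_TauLt) CD.pr_BiHom
    CD.pr_TransTop CDG.pr_RgBound

end Pool.Agent.Work.MP_3c5c20_lc.PIT
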